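import Mathlib

/-!
Packages of complex analysis in several variables (the project foliations without tensors on
complex manifolds which need not be algebraic).  Holomorphic means `DifferentiableOn ℂ`.
-/

set_option autoImplicit false

namespace Pool.Agent.Helper91.CX

open Metric Set Topology

/-- P1: circle integrals which depend holomorphically on a parameter -/
def S_Par : Prop := ∀ (n : ℕ) (F : (Fin n → ℂ) → ℂ → ℂ) (U : Set (Fin n → ℂ)) (r : ℝ), 0 < r →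
  IsOpen U → ContinuousOn (fun p : (Fin n → ℂ) × ℂ => F p.1 p.2) (U ×ˢ sphere 0 r) →
  (∀ ζ ∈ sphere (0 : ℂ) r, DifferentiableOn ℂ (fun z => F z ζ) U) →
  DifferentiableOn ℂ (fun z => ∮ ζ in C(0, r), F z ζ) U

/-- P1': directional derivatives of holomorphic functions are holomorphic -/
def S_Der : Prop := ∀ (n : ℕ) (f : (Fin n → ℂ) → ℂ) (U : Set (Fin n → ℂ)), IsOpen U →
  DifferentiableOn ℂ f U → ∀ v : Fin n → ℂ, DifferentiableOn ℂ (fun z => fderiv ℂ f z v) U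

/-- P2: the identity theorem -/
def S_Id : Prop := ∀ (n : ℕ) (f : (Fin n → ℂ) → ℂ) (U : Set (Fin n → ℂ)), IsOpen U →
  IsPreconnected U → DifferentiableOn ℂ f U → (∃ z ∈ U, f =ᶠ[𝓝 z] 0) → ∀ z ∈ U, f z = 0

/-- P2': removable singularities -/
def S_Rem : Prop := ∀ (n : ℕ) (x₀ v : Fin n → ℂ) (r δ : ℝ) (g : (Fin n → ℂ) → ℂ)
  (M Z : Set (Fin n → ℂ)), 0 < r → 0 < δ → IsOpen M → DifferentiableOn ℂ g M →
  (∀ z ∈ ball x₀ δ, ∀ ζ : ℂ, ‖ζ‖ = r → z + ζ • v ∈ M) → ball x₀ δ ⊆ closure Z →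
  (∀ z ∈ Z, ∀ ζ : ℂ, ‖ζ‖ ≤ r → z + ζ • v ∈ M) →
  ∃ g' : (Fin n → ℂ) → ℂ, DifferentiableOn ℂ g' (ball x₀ δ) ∧ ∀ z ∈ M ∩ ball x₀ δ, g' z = g z

/-- the distribution spanned by the vectors `V w i` extends as a holomorphic subbundle near `w₀` -/
def ExtAt {n m k : ℕ} (V : (Fin n → ℂ) → Fin k → Fin m → ℂ) (w₀ : Fin n → ℂ) : Prop :=
  ∃ W : Set (Fin n → ℂ), IsOpen W ∧ w₀ ∈ W ∧ ∃ G : (Fin n → ℂ) → Fin k → Fin m → ℂ,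
    (∀ i j, DifferentiableOn ℂ (fun w => G w i j) W) ∧ (∀ w ∈ W, LinearIndependent ℂ (G w)) ∧
    ∀ w ∈ W, LinearIndependent ℂ (V w) →
      Submodule.span ℂ (range (G w)) = Submodule.span ℂ (range (V w))

/-- P3: distributions extend as subbundles outside of sets of codimension two, one distribution -/
def S_Ext1 : Prop := ∀ (n m k : ℕ) (V : (Fin n → ℂ) → Fin k → Fin m → ℂ)
  (U : Set (Fin n → ℂ)) (J : Fin k → Fin m) (x₀ v : Fin n → ℂ) (r δ : ℝ), IsOpen U → 0 < r →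
  0 < δ → (∀ i j, DifferentiableOn ℂ (fun w => V w i j) U) →
  (∀ z ∈ ball x₀ δ, ∀ ζ : ℂ, ‖ζ‖ ≤ r → z + ζ • v ∈ U) →
  (∀ z ∈ ball x₀ δ, ∀ ζ : ℂ, ‖ζ‖ = r → (Matrix.of fun i j => V (z + ζ • v) i (J j)).det ≠ 0) →
  ∀ O : Set (Fin n → ℂ), IsOpen O → O.Nonempty → O ⊆ ball x₀ δ →
    ∃ O' : Set (Fin n → ℂ), IsOpen O' ∧ O'.Nonempty ∧ O' ⊆ O ∧
      ∀ z ∈ O', ∀ ζ : ℂ, ‖ζ‖ < r → ExtAt V (z + ζ • v)

/-- P4: a finite family of distributions -/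
def S_Ext : Prop := ∀ (n m : ℕ) (τ : Type) [Finite τ] (k : τ → ℕ)
  (V : ∀ t, (Fin n → ℂ) → Fin (k t) → Fin m → ℂ) (U : Set (Fin n → ℂ)) (x₀ : Fin n → ℂ),
  IsOpen U → x₀ ∈ U → (∀ t i j, DifferentiableOn ℂ (fun w => V t w i j) U) →
  (∀ t, ∃ᶠ w in 𝓝 x₀, LinearIndependent ℂ (V t w)) →
  ∃ (v : Fin n → ℂ) (r δ : ℝ), 0 < r ∧ 0 < δ ∧
    (∀ z ∈ ball x₀ δ, ∀ ζ : ℂ, ‖ζ‖ ≤ r → z + ζ • v ∈ U) ∧
    (∀ z ∈ ball x₀ δ, ∀ ζ : ℂ, ‖ζ‖ = r → ∀ t, LinearIndependent ℂ (V t (z + ζ • v))) ∧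
    ∃ Z ⊆ ball x₀ δ, ball x₀ δ ⊆ closure Z ∧
      ∀ z ∈ Z, ∀ ζ : ℂ, ‖ζ‖ ≤ r → ∀ t, ExtAt (V t) (z + ζ • v)

end Pool.Agent.Helper91.CX
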