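import Pool.Agent.Helper91.CX.Stm2

/-!
The bounded version of the package about brackets and tensors.
-/

set_option autoImplicit false

namespace Pool.Agent.Helper91.CX

open Metric Set Topology
open scoped Manifold ContDiff

/-- R1: brackets do not create tensors of bounded degree -/
def S_Brk2B (n : ℕ) (X : Type) [TopologicalSpace X] [ChartedSpace (Fin n → ℂ) X]
    [IsManifold 𝓘(ℂ, Fin n → ℂ) ω X] : Prop :=
  ∀ (M M' G : Set X) (𝓕 𝓕' : Ch n X → X → Submodule ℂ (Fin n → ℂ)) (r r' B : ℕ),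
  IsDist M 𝓕 r → IsDist M' 𝓕' r' → M' ⊆ M → M ⊆ closure M' → Rem n M' M → BrkOf M' G 𝓕 𝓕' →
  (∀ N, 0 < N → N ≤ 2 * B → NoSec (tenL r N) M 𝓕) → ∀ N, 0 < N → N ≤ B → NoSec (tenL r' N) M' 𝓕'

end Pool.Agent.Helper91.CX
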