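import Pool.Agent.Helper91.CX.Def
import Pool.Agent.Helper91.CX.Stm

/-!
Packages about distributions on complex manifolds.
-/

set_option autoImplicit false

namespace Pool.Agent.Helper91.CX

open Metric Set Topology
open scoped Manifold ContDiff

section

variable (n : ℕ) (X : Type) [TopologicalSpace X] [ChartedSpace (Fin n → ℂ) X]
  [IsManifold 𝓘(ℂ, Fin n → ℂ) ω X]

/-- the coordinates in `φ` of the preimage under `F` of the point with the coordinates `z` in `ψ` -/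
noncomputable def cc {n : ℕ} {X : Type} [TopologicalSpace X] [ChartedSpace (Fin n → ℂ) X] (F : Aut n X)
    (φ ψ : Ch n X) (z : Fin n → ℂ) : Fin n → ℂ := φ (F.symm (ψ.symm z))

/-- the transform of the set `W` of coordinates in `φ` -/
def Tr {n : ℕ} {X : Type} [TopologicalSpace X] [ChartedSpace (Fin n → ℂ) X] (F : Aut n X)
    (φ ψ : Ch n X) (W : Set (Fin n → ℂ)) : Set (Fin n → ℂ) :=
  {z | z ∈ ψ.target ∧ F.symm (ψ.symm z) ∈ φ.source ∧ cc F φ ψ z ∈ W}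

/-- Q1: the chain rule, inverses, transforms of open sets, functions and vector fields -/
def S_Chart : Prop :=
  (∀ (F F' : Aut n X), ∀ φ ∈ Charts n X, ∀ ψ ∈ Charts n X, ∀ χ ∈ Charts n X, ∀ x ∈ φ.source,
    F x ∈ ψ.source → F' (F x) ∈ χ.source → ∀ v,
      der (fun y => F' (F y)) φ χ x v = der F' ψ χ (F x) (der F φ ψ x v)) ∧
  (∀ φ ∈ Charts n X, ∀ x ∈ φ.source, ∀ v, der id φ φ x v = v) ∧
  (∀ (F : Aut n X), ∀ φ ∈ Charts n X, ∀ ψ ∈ Charts n X, ∀ x ∈ φ.source, F x ∈ ψ.source → ∀ v,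
    der F.symm ψ φ (F x) (der F φ ψ x v) = v ∧ der F φ ψ x (der F.symm ψ φ (F x) v) = v) ∧
  (∀ (F : Aut n X), ∀ φ ∈ Charts n X, ∀ ψ ∈ Charts n X, ∀ W : Set (Fin n → ℂ), IsOpen W →
    W ⊆ φ.target → IsOpen (Tr F φ ψ W) ∧
      (∀ g : (Fin n → ℂ) → ℂ, DifferentiableOn ℂ g W →
        DifferentiableOn ℂ (fun z => g (cc F φ ψ z)) (Tr F φ ψ W)) ∧
      ∀ (k : ℕ) (V : (Fin n → ℂ) → Fin k → Fin n → ℂ), Hol W V →
        Hol (Tr F φ ψ W) (fun z i => der F φ ψ (F.symm (ψ.symm z)) (V (cc F φ ψ z) i)))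

/-- the pull-back of a function on frames under an automorphism -/
noncomputable def pull {n : ℕ} {X : Type} [TopologicalSpace X] [ChartedSpace (Fin n → ℂ) X]
    {r : ℕ} {T : Type} (F : Aut n X) (s : Ch n X → X → (Fin r → Fin n → ℂ) → T) :
    Ch n X → X → (Fin r → Fin n → ℂ) → T :=
  fun φ x e => s (chartAt (Fin n → ℂ) (F x)) (F x)
    (fun i => der F φ (chartAt (Fin n → ℂ) (F x)) x (e i))

/-- Q3: the pull-back of a section is a section -/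
def S_Pull : Prop := ∀ (M : Set X) (𝓕 : Ch n X → X → Submodule ℂ (Fin n → ℂ)) (r : ℕ) (L : Law r)
  (s : Ch n X → X → (Fin r → Fin n → ℂ) → L.Ix → ℂ) (F : Aut n X), IsDist M 𝓕 r →
  IsSec L M 𝓕 s → IsSec L M 𝓕 (pull F s) ∧ ∀ φ ∈ Charts n X, ∀ ψ ∈ Charts n X, ∀ x ∈ φ.source,
    x ∈ M → F x ∈ ψ.source → ∀ e, Fr 𝓕 φ x e →
      pull F s φ x e = s ψ (F x) (fun i => der F φ ψ x (e i))

/-- Q4: sections extend over removable sets -/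
def S_SecExt : Prop := ∀ (M M' : Set X) (𝓕 : Ch n X → X → Submodule ℂ (Fin n → ℂ)) (r : ℕ)
  (L : Law r) (s : Ch n X → X → (Fin r → Fin n → ℂ) → L.Ix → ℂ), IsDist M 𝓕 r → IsOpen M' →
  M' ⊆ M → M ⊆ closure M' → Rem n M' M → IsSec L M' 𝓕 s →
  ∃ s' : Ch n X → X → (Fin r → Fin n → ℂ) → L.Ix → ℂ, IsSec L M 𝓕 s' ∧
    ∀ φ ∈ Charts n X, ∀ x ∈ φ.source, x ∈ M' → ∀ e, Fr 𝓕 φ x e → s' φ x e = s φ x e

/-- Q5: removable sets do not disconnect, and transitivity -/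
def S_Conn : Prop :=
  (∀ M M' : Set X, IsOpen M → IsOpen M' → M' ⊆ M → M ⊆ closure M' → Rem n M' M →
    IsPreconnected M → IsPreconnected M') ∧
  ∀ M M' M'' : Set X, IsOpen M → IsOpen M' → IsOpen M'' → M'' ⊆ M' → M' ⊆ M →
    M ⊆ closure M' → M' ⊆ closure M'' → Rem n M'' M' → Rem n M' M → Rem n M'' M

/-- Q6: the saturation of a distribution which is given on a dense open subset -/
def S_Sat : Prop := ∀ (M G : Set X) (𝓖 : Ch n X → X → Submodule ℂ (Fin n → ℂ)) (k : ℕ),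
  IsOpen M → (∀ (F : Aut n X), ∀ x ∈ M, F x ∈ M) → IsDist G 𝓖 k → G ⊆ M → M ⊆ closure G →
  ∃ (M' : Set X) (𝓕' : Ch n X → X → Submodule ℂ (Fin n → ℂ)), IsDist M' 𝓕' k ∧ G ⊆ M' ∧
    M' ⊆ M ∧ (∀ φ ∈ Charts n X, ∀ x ∈ φ.source, x ∈ G → 𝓕' φ x = 𝓖 φ x) ∧
    ∀ φ ∈ Charts n X, ∀ x ∈ φ.source, ∀ (W Z : Set (Fin n → ℂ))
      (V : (Fin n → ℂ) → Fin k → Fin n → ℂ), Dom φ M W → φ x ∈ W → Hol W V →
      (∀ y ∈ W, LinearIndependent ℂ (V y)) → W ⊆ closure Z → Z ⊆ W →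
      (∀ y ∈ Z, φ.symm y ∈ G ∧ Submodule.span ℂ (range (V y)) = 𝓖 φ (φ.symm y)) →
        x ∈ M' ∧ 𝓕' φ x = Submodule.span ℂ (range (V (φ x)))

/-- Q8: a criterion for removable complements -/
def S_RemOf : Prop := ∀ M M' : Set X, IsOpen M → IsOpen M' → M' ⊆ M →
  (∀ φ ∈ Charts n X, ∀ x ∈ φ.source, x ∈ M → ∃ (τ : Type) (_ : Finite τ) (k : τ → ℕ)
    (W : Set (Fin n → ℂ)) (V : ∀ t, (Fin n → ℂ) → Fin (k t) → Fin n → ℂ), Dom φ M W ∧ φ x ∈ W ∧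
      (∀ t, Hol W (V t)) ∧ (∀ t, ∃ᶠ w in 𝓝 (φ x), LinearIndependent ℂ (V t w)) ∧
      ∀ w ∈ W, (∀ t, ExtAt (V t) w) → φ.symm w ∈ M') → Rem n M' M

/-- the distribution `𝓕` is involutive on `M` -/
def Invol {n : ℕ} {X : Type} [TopologicalSpace X] [ChartedSpace (Fin n → ℂ) X] (M : Set X)
    (𝓕 : Ch n X → X → Submodule ℂ (Fin n → ℂ)) : Prop :=
  ∀ φ ∈ Charts n X, ∀ (W : Set (Fin n → ℂ)) (u v : (Fin n → ℂ) → Fin n → ℂ), Dom φ M W →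
    DifferentiableOn ℂ u W → DifferentiableOn ℂ v W → (∀ y ∈ W, u y ∈ 𝓕 φ (φ.symm y)) →
    (∀ y ∈ W, v y ∈ 𝓕 φ (φ.symm y)) →
      ∀ y ∈ W, fderiv ℂ v y (u y) - fderiv ℂ u y (v y) ∈ 𝓕 φ (φ.symm y)

/-- `u` is a holomorphic vector field on `W` which is tangent to `𝓕` -/
def Tan {n : ℕ} {X : Type} [TopologicalSpace X] (M : Set X)
    (𝓕 : Ch n X → X → Submodule ℂ (Fin n → ℂ)) (φ : Ch n X) (W : Set (Fin n → ℂ))
    (u : (Fin n → ℂ) → Fin n → ℂ) : Prop :=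
  Dom φ M W ∧ DifferentiableOn ℂ u W ∧ ∀ y ∈ W, u y ∈ 𝓕 φ (φ.symm y)

/-- the Lie bracket of vector fields -/
noncomputable def brk {n : ℕ} (u v : (Fin n → ℂ) → Fin n → ℂ) (y : Fin n → ℂ) : Fin n → ℂ :=
  fderiv ℂ v y (u y) - fderiv ℂ u y (v y)

/-- the conditions on the distribution `𝓕'` on `M'` which is generated, on the dense open subset `G`,
by `𝓕` and the brackets of vector fields tangent to `𝓕` -/
def BrkOf {n : ℕ} {X : Type} [TopologicalSpace X] [ChartedSpace (Fin n → ℂ) X] (M' G : Set X)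
    (𝓕 𝓕' : Ch n X → X → Submodule ℂ (Fin n → ℂ)) : Prop :=
  (∀ φ ∈ Charts n X, ∀ x ∈ φ.source, x ∈ M' → 𝓕 φ x ≤ 𝓕' φ x) ∧
  (∀ φ ∈ Charts n X, ∀ W u v, Tan M' 𝓕 φ W u → Tan M' 𝓕 φ W v →
    ∀ y ∈ W, brk u v y ∈ 𝓕' φ (φ.symm y)) ∧
  IsOpen G ∧ G ⊆ M' ∧ M' ⊆ closure G ∧
  ∀ φ ∈ Charts n X, ∀ x ∈ φ.source, x ∈ G → 𝓕' φ x ≤ Submodule.span ℂ
    ({w | w ∈ 𝓕 φ x} ∪ {w | ∃ W u v, Tan M' 𝓕 φ W u ∧ Tan M' 𝓕 φ W v ∧ φ x ∈ W ∧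
      w = brk u v (φ x)})

/-- Q7: the distribution generated by the brackets -/
def S_Brk1 : Prop := ∀ (M : Set X) (𝓕 : Ch n X → X → Submodule ℂ (Fin n → ℂ)) (r : ℕ),
  IsDist M 𝓕 r → M.Nonempty → IsPreconnected M → Invol M 𝓕 ∨
    ∃ (M' G : Set X) (𝓕' : Ch n X → X → Submodule ℂ (Fin n → ℂ)) (r' : ℕ),
      r < r' ∧ IsDist M' 𝓕' r' ∧ M'.Nonempty ∧ IsPreconnected M' ∧ M' ⊆ M ∧ M ⊆ closure M' ∧
      Rem n M' M ∧ BrkOf M' G 𝓕 𝓕'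

/-- Q9: it has no tensors -/
def S_Brk2 : Prop := ∀ (M M' G : Set X) (𝓕 𝓕' : Ch n X → X → Submodule ℂ (Fin n → ℂ)) (r r' : ℕ),
  IsDist M 𝓕 r → IsDist M' 𝓕' r' → M' ⊆ M → M ⊆ closure M' → Rem n M' M → BrkOf M' G 𝓕 𝓕' →
  (∀ N, 0 < N → NoSec (tenL r N) M 𝓕) → ∀ N, 0 < N → NoSec (tenL r' N) M' 𝓕'

end

/-- Q2: Cramer's rule with parameters -/
def S_Cramer : Prop := ∀ (n m k : ℕ) (W Z : Set (Fin n → ℂ)) (y₀ : Fin n → ℂ)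
  (V : (Fin n → ℂ) → Fin k → Fin m → ℂ) (u : (Fin n → ℂ) → Fin m → ℂ), IsOpen W → y₀ ∈ W →
  Hol W V → DifferentiableOn ℂ u W → LinearIndependent ℂ (V y₀) → W ⊆ closure Z → Z ⊆ W →
  (∀ y ∈ Z, u y ∈ Submodule.span ℂ (range (V y))) →
  ∃ (W' : Set (Fin n → ℂ)) (c : (Fin n → ℂ) → Fin k → ℂ), IsOpen W' ∧ y₀ ∈ W' ∧ W' ⊆ W ∧
    (∀ i, DifferentiableOn ℂ (fun y => c y i) W') ∧ (∀ y ∈ W', LinearIndependent ℂ (V y)) ∧
    ∀ y ∈ W', u y = ∑ i, c y i • V y i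

end Pool.Agent.Helper91.CX
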