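import Mathlib

/-!
Holomorphic distributions on complex manifolds, in charts, and equivariant functions on their frames.
-/

set_option autoImplicit false

namespace Pool.Agent.Helper91.CX

open Metric Set Topology
open scoped Manifold ContDiff

/-- coordinate systems on `X` -/
abbrev Ch (n : ℕ) (X : Type) [TopologicalSpace X] : Type := OpenPartialHomeomorph X (Fin n → ℂ)

/-- the holomorphic charts of the complex manifold `X` -/
def Charts (n : ℕ) (X : Type) [TopologicalSpace X] [ChartedSpace (Fin n → ℂ) X] : Set (Ch n X) :=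
  IsManifold.maximalAtlas 𝓘(ℂ, Fin n → ℂ) ω X

/-- the biholomorphic automorphisms of `X` -/
abbrev Aut (n : ℕ) (X : Type) [TopologicalSpace X] [ChartedSpace (Fin n → ℂ) X] : Type :=
  Diffeomorph 𝓘(ℂ, Fin n → ℂ) 𝓘(ℂ, Fin n → ℂ) X X ω

variable {n : ℕ} {X : Type} [TopologicalSpace X]

/-- the derivative of the map `F` at `x` in the charts `φ` (at `x`) and `ψ` (at `F x`) -/
noncomputable def der (F : X → X) (φ ψ : Ch n X) (x : X) : (Fin n → ℂ) →L[ℂ] (Fin n → ℂ) :=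
  fderiv ℂ (ψ ∘ F ∘ φ.symm) (φ x)

/-- `W` is an open set of coordinates, in the chart `φ`, of points of `M` -/
def Dom (φ : Ch n X) (M : Set X) (W : Set (Fin n → ℂ)) : Prop :=
  IsOpen W ∧ W ⊆ φ.target ∧ ∀ y ∈ W, φ.symm y ∈ M

/-- the `k` vectors `V y i`, depending on `y`, are holomorphic on `W` -/
def Hol {k m : ℕ} (W : Set (Fin n → ℂ)) (V : (Fin n → ℂ) → Fin k → Fin m → ℂ) : Prop :=
  ∀ i j, DifferentiableOn ℂ (fun y => V y i j) W

/-- `e` is a basis of the fibre at `x` of the distribution `𝓕` (a family of subspaces in all charts) -/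
def Fr {r : ℕ} (𝓕 : Ch n X → X → Submodule ℂ (Fin n → ℂ)) (φ : Ch n X) (x : X)
    (e : Fin r → Fin n → ℂ) : Prop :=
  LinearIndependent ℂ e ∧ Submodule.span ℂ (range e) = 𝓕 φ x

/-- linear transform of a family of vectors -/
def mv {r m : ℕ} (C : Matrix (Fin r) (Fin r) ℂ) (e : Fin r → Fin m → ℂ) : Fin r → Fin m → ℂ :=
  fun i => ∑ j, C i j • e j

variable [ChartedSpace (Fin n → ℂ) X]

/-- `𝓕` is a holomorphic distribution (subbundle of the tangent bundle) of rank `r` on the open set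
`M`, and `M` and `𝓕` are invariant under all automorphisms of `X` (the automorphism `id` gives the
compatibility of the charts). -/
structure IsDist (M : Set X) (𝓕 : Ch n X → X → Submodule ℂ (Fin n → ℂ)) (r : ℕ) : Prop where
  isOpen : IsOpen M
  frame : ∀ φ ∈ Charts n X, ∀ x ∈ φ.source, x ∈ M → ∃ (W : Set (Fin n → ℂ))
    (e : (Fin n → ℂ) → Fin r → Fin n → ℂ), Dom φ M W ∧ φ x ∈ W ∧ Hol W e ∧
      ∀ y ∈ W, Fr 𝓕 φ (φ.symm y) (e y)
  inv : ∀ (F : Aut n X), ∀ x ∈ M, F x ∈ M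
  nat : ∀ (F : Aut n X), ∀ φ ∈ Charts n X, ∀ ψ ∈ Charts n X, ∀ x ∈ φ.source, x ∈ M →
    F x ∈ ψ.source → 𝓕 ψ (F x) = (𝓕 φ x).map (der F φ ψ x : (Fin n → ℂ) →ₗ[ℂ] (Fin n → ℂ))

/-- a transformation law for functions on the frames of a distribution of rank `r` -/
structure Law (r : ℕ) where
  Ix : Type
  fin : Fintype Ix
  R : Matrix (Fin r) (Fin r) ℂ → Ix → Ix → ℂ
  hol : ∀ {n : ℕ} (W : Set (Fin n → ℂ)) (C : (Fin n → ℂ) → Matrix (Fin r) (Fin r) ℂ),
    (∀ i j, DifferentiableOn ℂ (fun y => C y i j) W) →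
      ∀ J I, DifferentiableOn ℂ (fun y => R (C y) J I) W

attribute [instance] Law.fin

/-- `s` is a holomorphic function on the frames of `𝓕` over `M` with the transformation law `L`
(a section of the vector bundle which is associated with `𝓕` and `L`) -/
structure IsSec {r : ℕ} (L : Law r) (M : Set X) (𝓕 : Ch n X → X → Submodule ℂ (Fin n → ℂ))
    (s : Ch n X → X → (Fin r → Fin n → ℂ) → L.Ix → ℂ) : Prop where
  law : ∀ φ ∈ Charts n X, ∀ x ∈ φ.source, x ∈ M → ∀ e, Fr 𝓕 φ x e →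
    ∀ C : Matrix (Fin r) (Fin r) ℂ, C.det ≠ 0 → ∀ J,
      s φ x (mv C e) J = ∑ I, L.R C J I * s φ x e I
  nat : ∀ φ ∈ Charts n X, ∀ ψ ∈ Charts n X, ∀ x ∈ φ.source, x ∈ ψ.source → x ∈ M →
    ∀ e, Fr 𝓕 φ x e → s ψ x (fun i => der id φ ψ x (e i)) = s φ x e
  hol : ∀ φ ∈ Charts n X, ∀ (W : Set (Fin n → ℂ)) (e : (Fin n → ℂ) → Fin r → Fin n → ℂ),
    Dom φ M W → Hol W e → (∀ y ∈ W, Fr 𝓕 φ (φ.symm y) (e y)) →
      ∀ I, DifferentiableOn ℂ (fun y => s φ (φ.symm y) (e y) I) W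

theorem dprod {n : ℕ} {W : Set (Fin n → ℂ)} {ι : Type*} (u : Finset ι)
    (f : ι → (Fin n → ℂ) → ℂ) (h : ∀ k ∈ u, DifferentiableOn ℂ (f k) W) :
    DifferentiableOn ℂ (fun y => ∏ k ∈ u, f k y) W := by
  classical
  induction u using Finset.induction_on with
  | empty => simp only [Finset.prod_empty]; exact differentiableOn_const _
  | insert a u ha ih =>
    simp only [Finset.prod_insert ha]
    exact (h a (Finset.mem_insert_self _ _)).mul
      (ih fun k hk => h k (Finset.mem_insert_of_mem hk))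

theorem ddet {n r : ℕ} {W : Set (Fin n → ℂ)} {C : (Fin n → ℂ) → Matrix (Fin r) (Fin r) ℂ}
    (h : ∀ i j, DifferentiableOn ℂ (fun y => C y i j) W) :
    DifferentiableOn ℂ (fun y => (C y).det) W := by
  simp only [Matrix.det_apply]
  refine DifferentiableOn.fun_sum fun σ _ => ?_
  exact (dprod _ _ fun k _ => h (σ k) k).const_smul _

/-- the law of the tensors of degree `N` -/
def tenL (r N : ℕ) : Law r where
  Ix := Fin N → Fin r
  fin := inferInstance
  R := fun C J I => ∏ k, C (J k) (I k)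
  hol := fun _ _ h J I => dprod _ _ fun k _ => h (J k) (I k)

/-- the law of the forms of degree `m` -/
def formL (r m : ℕ) : Law r where
  Ix := Unit
  fin := inferInstance
  R := fun C _ _ => C.det ^ m
  hol := fun _ _ h _ _ => (ddet h).pow m

/-- all sections with the law `L` vanish -/
def NoSec {r : ℕ} (L : Law r) (M : Set X) (𝓕 : Ch n X → X → Submodule ℂ (Fin n → ℂ)) : Prop :=
  ∀ s, IsSec L M 𝓕 s → ∀ φ ∈ Charts n X, ∀ x ∈ φ.source, x ∈ M → ∀ e, Fr 𝓕 φ x e →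
    ∀ I, s φ x e I = 0

/-- holomorphic functions extend locally from `M'` to `M` -/
def Rem (n : ℕ) {X : Type} [TopologicalSpace X] [ChartedSpace (Fin n → ℂ) X]
    (M' M : Set X) : Prop :=
  ∀ φ ∈ Charts n X, ∀ x ∈ φ.source, x ∈ M → ∀ W : Set (Fin n → ℂ), Dom φ M W → φ x ∈ W →
    ∀ g : (Fin n → ℂ) → ℂ, DifferentiableOn ℂ g (W ∩ φ.symm ⁻¹' M') →
      ∃ (W' : Set (Fin n → ℂ)) (g' : (Fin n → ℂ) → ℂ), IsOpen W' ∧ W' ⊆ W ∧ φ x ∈ W' ∧
        DifferentiableOn ℂ g' W' ∧ ∀ y ∈ W', φ.symm y ∈ M' → g' y = g y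

end Pool.Agent.Helper91.CX
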